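import Mathlib

set_option autoImplicit false

open Filter Topology Polynomial

namespace Pool.Agent.Results.MP_f5651a_an.BlowUpLimsup

/-- `F` is a functional of degree `m`: on every rational line `t ↦ F (x₀ + t h₀)` it is a
polynomial in `t` of degree at most `m`. -/
def IsFunctionalOfDegree {E : Type*} [AddCommGroup E] [Module ℝ E] (m : ℕ) (F : E → ℝ) : Prop :=
  ∀ x₀ h₀ : E, ∃ a : ℕ → ℝ, ∀ t : ℚ,
    F (x₀ + (t : ℝ) • h₀) = ∑ k ∈ Finset.range (m + 1), a k * (t : ℝ) ^ k

variable {E : Type*}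

section algebra

variable [AddCommGroup E] [Module ℝ E]

lemma exists_poly {m : ℕ} {F : E → ℝ} (hF : IsFunctionalOfDegree m F) (x h : E) :
    ∃ p : ℝ[X], p.natDegree ≤ m ∧ ∀ t : ℚ, F (x + (t : ℝ) • h) = p.eval (t : ℝ) := by
  obtain ⟨a, ha⟩ := hF x h
  refine ⟨∑ k ∈ Finset.range (m + 1), C (a k) * X ^ k, ?_, fun t => ?_⟩
  · refine natDegree_sum_le_of_forall_le _ _ fun k hk => ?_
    refine (natDegree_C_mul_X_pow_le _ _).trans ?_
    have := Finset.mem_range.mp hk
    omega
  · rw [ha t, eval_finsetSum]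
    simp

lemma of_poly {m : ℕ} {F : E → ℝ}
    (hF : ∀ x h : E, ∃ p : ℝ[X], p.natDegree ≤ m ∧
      ∀ t : ℚ, F (x + (t : ℝ) • h) = p.eval (t : ℝ)) :
    IsFunctionalOfDegree m F := by
  intro x h
  obtain ⟨p, hp, hpt⟩ := hF x h
  refine ⟨fun k => p.coeff k, fun t => ?_⟩
  rw [hpt t, eval_eq_sum_range' (Nat.lt_succ_of_le hp)]

/-- the polynomial of `F` along the line through `x` in direction `h`. -/
noncomputable def P {m : ℕ} {F : E → ℝ} (hF : IsFunctionalOfDegree m F) (x h : E) : ℝ[X] :=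
  (exists_poly hF x h).choose

lemma P_deg {m : ℕ} {F : E → ℝ} (hF : IsFunctionalOfDegree m F) (x h : E) :
    (P hF x h).natDegree ≤ m := (exists_poly hF x h).choose_spec.1

lemma P_eval {m : ℕ} {F : E → ℝ} (hF : IsFunctionalOfDegree m F) (x h : E) (t : ℚ) :
    F (x + (t : ℝ) • h) = (P hF x h).eval (t : ℝ) := (exists_poly hF x h).choose_spec.2 t

lemma P_eval_nat {m : ℕ} {F : E → ℝ} (hF : IsFunctionalOfDegree m F) (x h : E) (t : ℕ) :
    F (x + (t : ℝ) • h) = (P hF x h).eval (t : ℝ) := by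
  have := P_eval hF x h (t : ℚ)
  simpa using this

lemma poly_ext_rat {p q : ℝ[X]} (h : ∀ t : ℚ, p.eval (t : ℝ) = q.eval (t : ℝ)) : p = q := by
  apply Polynomial.eq_of_infinite_eval_eq
  refine Set.Infinite.mono (s := Set.range (fun t : ℚ => (t : ℝ))) ?_ ?_
  · rintro _ ⟨t, rfl⟩; exact h t
  · exact Set.infinite_range_of_injective Rat.cast_injective

/-- Lagrange basis at nodes `0..m`. -/
noncomputable def lag (m j : ℕ) : ℝ[X] :=
  Lagrange.basis (Finset.range (m + 1)) (fun i : ℕ => (i : ℝ)) j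

lemma lag_expand {m : ℕ} {p : ℝ[X]} (hp : p.natDegree ≤ m) :
    p = ∑ j ∈ Finset.range (m + 1), C (p.eval (j : ℝ)) * lag m j := by
  have hinj : Set.InjOn (fun i : ℕ => (i : ℝ)) (Finset.range (m + 1) : Set ℕ) :=
    Nat.cast_injective.injOn
  have hd : p.degree < (Finset.range (m + 1)).card := by
    rw [Finset.card_range]
    exact lt_of_le_of_lt degree_le_natDegree (by exact_mod_cast Nat.lt_succ_of_le hp)
  have h := Lagrange.eq_interpolate hinj hd
  rw [Lagrange.interpolate_apply] at h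
  exact h

/-- the coefficients of the polynomial along `x + s (y + r h)` are polynomials in `r`. -/
lemma coeff_poly {m : ℕ} {F : E → ℝ} (hF : IsFunctionalOfDegree m F) (x y h : E) :
    ∃ α : ℕ → ℝ[X], (∀ k, (α k).natDegree ≤ m) ∧
      ∀ k (r : ℚ), (P hF x (y + (r : ℝ) • h)).coeff k = (α k).eval (r : ℝ) := by
  refine ⟨fun k => ∑ j ∈ Finset.range (m + 1),
    C ((lag m j).coeff k) * P hF (x + (j : ℝ) • y) ((j : ℝ) • h), fun k => ?_, fun k r => ?_⟩
  · refine natDegree_sum_le_of_forall_le _ _ fun j _ => ?_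
    exact (natDegree_C_mul_le _ _).trans (P_deg hF _ _)
  · conv_lhs => rw [lag_expand (P_deg hF x (y + (r : ℝ) • h))]
    rw [finsetSum_coeff, eval_finsetSum]
    refine Finset.sum_congr rfl fun j _ => ?_
    rw [coeff_C_mul, eval_mul, eval_C, mul_comm, ← P_eval_nat, ← P_eval]
    congr 2
    rw [smul_add, add_assoc, smul_comm (j : ℝ) (r : ℝ) h]

lemma tendsto_lead (m : ℕ) (β : ℕ → ℝ[X]) :
    Tendsto (fun n : ℕ => (∑ k ∈ Finset.range (m + 1), (β k).eval (1 / (n : ℝ)) * (n : ℝ) ^ k)
      / (n : ℝ) ^ m) atTop (𝓝 ((β m).eval 0)) := by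
  have h0 : Tendsto (fun n : ℕ => 1 / (n : ℝ)) atTop (𝓝 0) := tendsto_one_div_atTop_nhds_zero_nat
  have hβ : ∀ k, Tendsto (fun n : ℕ => (β k).eval (1 / (n : ℝ))) atTop (𝓝 ((β k).eval 0)) :=
    fun k => ((β k).continuous.tendsto 0).comp h0
  have h1 : Tendsto (fun n : ℕ => ∑ k ∈ Finset.range (m + 1),
      (β k).eval (1 / (n : ℝ)) * ((1 / (n : ℝ)) ^ (m - k))) atTop
      (𝓝 (∑ k ∈ Finset.range (m + 1), (β k).eval 0 * (0 : ℝ) ^ (m - k))) := by
    refine tendsto_finsetSum _ fun k _ => ?_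
    exact (hβ k).mul (h0.pow _)
  have h2 : (∑ k ∈ Finset.range (m + 1), (β k).eval 0 * (0 : ℝ) ^ (m - k)) = (β m).eval 0 := by
    rw [Finset.sum_range_succ, Finset.sum_eq_zero]
    · simp
    · intro k hk
      have := Finset.mem_range.mp hk
      rw [zero_pow (by omega), mul_zero]
  rw [h2] at h1
  refine h1.congr' ?_
  filter_upwards [eventually_gt_atTop 0] with n hn
  have hn' : (n : ℝ) ≠ 0 := by positivity
  rw [Finset.sum_div]
  refine Finset.sum_congr rfl fun k hk => ?_
  have hk' : k ≤ m := by have := Finset.mem_range.mp hk; omega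
  rw [mul_div_assoc]
  congr 1
  rw [one_div, inv_pow, eq_div_iff (by positivity), inv_mul_eq_iff_eq_mul₀ (by positivity),
    ← pow_add, Nat.sub_add_cancel hk']

lemma tendsto_coeff {m : ℕ} {p : ℝ[X]} (hp : p.natDegree ≤ m) :
    Tendsto (fun n : ℕ => p.eval (n : ℝ) / (n : ℝ) ^ m) atTop (𝓝 (p.coeff m)) := by
  have h := tendsto_lead m (fun k => C (p.coeff k))
  simp only [eval_C] at h
  refine h.congr fun n => ?_
  rw [eval_eq_sum_range' (Nat.lt_succ_of_le hp)]

/-- The leading coefficient does not depend on the base point. -/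
lemma lead_indep {m : ℕ} {F : E → ℝ} (hF : IsFunctionalOfDegree m F) (x h y : E) :
    (P hF (x + h) y).coeff m = (P hF x y).coeff m := by
  obtain ⟨α, -, hα⟩ := coeff_poly hF x y h
  have h1 : Tendsto (fun n : ℕ => (P hF (x + h) y).eval (n : ℝ) / (n : ℝ) ^ m) atTop
      (𝓝 ((P hF (x + h) y).coeff m)) := tendsto_coeff (P_deg hF _ _)
  have h2 := tendsto_lead m α
  have h3 : (α m).eval 0 = (P hF x y).coeff m := by
    have := hα m 0
    simpa using this.symm
  rw [h3] at h2
  refine tendsto_nhds_unique h1 (h2.congr' ?_)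
  filter_upwards [eventually_gt_atTop 0] with n hn
  have hn' : (n : ℝ) ≠ 0 := by positivity
  congr 1
  have e1 : (P hF (x + h) y).eval (n : ℝ) =
      (P hF x (y + ((1 / (n : ℚ) : ℚ) : ℝ) • h)).eval (n : ℝ) := by
    rw [← P_eval_nat, ← P_eval_nat]
    congr 1
    push_cast
    rw [smul_add, smul_smul, mul_one_div_cancel hn', one_smul]
    abel
  rw [e1, eval_eq_sum_range' (Nat.lt_succ_of_le (P_deg hF x _))]
  refine Finset.sum_congr rfl fun k _ => ?_
  rw [hα k]
  push_cast
  rfl

/-- The top homogeneous component. -/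
noncomputable def top {m : ℕ} {F : E → ℝ} (hF : IsFunctionalOfDegree m F) (z : E) : ℝ :=
  (P hF 0 z).coeff m

lemma coeff_eq_top {m : ℕ} {F : E → ℝ} (hF : IsFunctionalOfDegree m F) (x z : E) :
    (P hF x z).coeff m = top hF z := by
  have := lead_indep hF 0 x z
  rwa [zero_add] at this

lemma top_smul {m : ℕ} {F : E → ℝ} (hF : IsFunctionalOfDegree m F) (q : ℚ) (z : E) :
    top hF ((q : ℝ) • z) = (q : ℝ) ^ m * top hF z := by
  have h : P hF 0 ((q : ℝ) • z) = (P hF 0 z).comp (C (q : ℝ) * X) := by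
    apply poly_ext_rat
    intro t
    rw [← P_eval, eval_comp, eval_mul, eval_C, eval_X]
    have := P_eval hF 0 z (q * t)
    push_cast at this
    rw [← this, smul_smul, mul_comm]
  unfold top
  rw [h, comp_C_mul_X_coeff, mul_comm]

lemma top_line {m : ℕ} {F : E → ℝ} (hF : IsFunctionalOfDegree m F) (x h : E) :
    ∃ α : ℝ[X], α.natDegree ≤ m ∧ α.coeff m = top hF h ∧
      ∀ t : ℚ, top hF (x + (t : ℝ) • h) = α.eval (t : ℝ) := by
  obtain ⟨α, hαd, hα⟩ := coeff_poly hF 0 x h
  obtain ⟨α', -, hα'⟩ := coeff_poly hF 0 h x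
  refine ⟨α m, hαd m, ?_, fun t => hα m t⟩
  have h1 := tendsto_coeff (hαd m)
  have h0 : Tendsto (fun n : ℕ => 1 / (n : ℝ)) atTop (𝓝 0) := tendsto_one_div_atTop_nhds_zero_nat
  have h2 : Tendsto (fun n : ℕ => (α' m).eval (1 / (n : ℝ))) atTop (𝓝 ((α' m).eval 0)) :=
    ((α' m).continuous.tendsto 0).comp h0
  have h3 : (α' m).eval 0 = top hF h := by
    have := hα' m 0
    simpa [top] using this.symm
  rw [h3] at h2
  refine tendsto_nhds_unique h1 (h2.congr' ?_)
  filter_upwards [eventually_gt_atTop 0] with n hn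
  have hn' : (n : ℝ) ≠ 0 := by positivity
  have e1 := hα m (n : ℚ)
  have e2 := hα' m (1 / (n : ℚ))
  push_cast at e1 e2
  rw [← e1, ← e2]
  have e3 := top_smul hF (n : ℚ) (h + (1 / (n : ℝ)) • x)
  push_cast at e3
  unfold top at e3
  rw [eq_div_iff (by positivity), mul_comm, ← e3]
  congr 2
  rw [smul_add, smul_smul, mul_one_div_cancel hn', one_smul, add_comm]

lemma top_isFunctional {m : ℕ} {F : E → ℝ} (hF : IsFunctionalOfDegree m F) :
    IsFunctionalOfDegree m (top hF) :=
  of_poly fun x h => by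
    obtain ⟨α, h1, -, h3⟩ := top_line hF x h
    exact ⟨α, h1, h3⟩

lemma sub_top {m : ℕ} {F : E → ℝ} (hF : IsFunctionalOfDegree (m + 1) F) :
    IsFunctionalOfDegree m (fun x => F x - top hF x) :=
  of_poly fun x h => by
    obtain ⟨α, h1, h2, h3⟩ := top_line hF x h
    refine ⟨P hF x h - α, ?_, fun t => ?_⟩
    · have hd : (P hF x h - α).natDegree ≤ m + 1 :=
        (natDegree_sub_le _ _).trans (max_le (P_deg hF x h) h1)
      have hc : (P hF x h - α).coeff (m + 1) = 0 := by
        rw [coeff_sub, coeff_eq_top, h2, sub_self]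
      rcases Nat.lt_or_ge m (P hF x h - α).natDegree with hlt | hge
      · have he : (P hF x h - α).natDegree = m + 1 := by omega
        have : (P hF x h - α).leadingCoeff = 0 := by rw [leadingCoeff, he, hc]
        rw [leadingCoeff_eq_zero] at this
        rw [this]; simp
      · exact hge
    · rw [h3, P_eval hF, eval_sub]

/-- A bound for the leading coefficient by the values at `0..m`. -/
lemma exists_large {m : ℕ} {F : E → ℝ} (hF : IsFunctionalOfDegree m F) :
    ∃ K : ℝ, 0 < K ∧ ∀ (y h : E) (A : ℝ), A < |top hF h| →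
      ∃ j ∈ Finset.range (m + 1), A / K < |F (y + (j : ℝ) • h)| := by
  refine ⟨1 + ∑ j ∈ Finset.range (m + 1), |(lag m j).coeff m|, by positivity, ?_⟩
  intro y h A hA
  by_contra hcon
  push Not at hcon
  set K := 1 + ∑ j ∈ Finset.range (m + 1), |(lag m j).coeff m| with hK
  have hKpos : 0 < K := by positivity
  have h1 : top hF h = ∑ j ∈ Finset.range (m + 1), F (y + (j : ℝ) • h) * (lag m j).coeff m := by
    rw [← coeff_eq_top hF y h, lag_expand (P_deg hF y h), finsetSum_coeff]
    refine Finset.sum_congr rfl fun j _ => ?_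
    rw [coeff_C_mul, ← P_eval_nat]
  have hA0 : 0 ≤ A / K := (abs_nonneg _).trans (hcon 0 (by simp))
  have h2 : |top hF h| ≤ ∑ j ∈ Finset.range (m + 1), (A / K) * |(lag m j).coeff m| := by
    rw [h1]
    refine (Finset.abs_sum_le_sum_abs _ _).trans (Finset.sum_le_sum fun j hj => ?_)
    rw [abs_mul]
    exact mul_le_mul_of_nonneg_right (hcon j hj) (abs_nonneg _)
  rw [← Finset.mul_sum] at h2
  have h3 : (A / K) * ∑ j ∈ Finset.range (m + 1), |(lag m j).coeff m| ≤ (A / K) * K :=
    mul_le_mul_of_nonneg_left (by rw [hK]; linarith) hA0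
  rw [div_mul_cancel₀ _ hKpos.ne'] at h3
  linarith

end algebra

section normed

variable [NormedAddCommGroup E] [NormedSpace ℝ E]

lemma continuousAt_of_bounded {m : ℕ} {F : E → ℝ} (hF : IsFunctionalOfDegree m F) (x : E)
    {δ M : ℝ} (hδ : 0 < δ) (hM : ∀ h : E, ‖h‖ < δ → |F (x + h)| ≤ M) : ContinuousAt F x := by
  have hM0 : 0 ≤ M := (abs_nonneg _).trans (hM 0 (by simpa using hδ))
  -- smallness of the Lagrange differences
  have h0 : Tendsto (fun n : ℕ => 1 / (n : ℝ)) atTop (𝓝 0) := tendsto_one_div_atTop_nhds_zero_nat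
  have h1 : Tendsto (fun n : ℕ => M * ∑ j ∈ Finset.range (m + 1),
      |(lag m j).eval (1 / (n : ℝ)) - (lag m j).eval 0|) atTop (𝓝 0) := by
    have : Tendsto (fun n : ℕ => M * ∑ j ∈ Finset.range (m + 1),
      |(lag m j).eval (1 / (n : ℝ)) - (lag m j).eval 0|) atTop
      (𝓝 (M * ∑ j ∈ Finset.range (m + 1), |(lag m j).eval 0 - (lag m j).eval 0|)) := by
      refine Tendsto.const_mul _ (tendsto_finsetSum _ fun j _ => ?_)
      exact ((((lag m j).continuous.tendsto 0).comp h0).sub_const _).abs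
    simpa using this
  rw [Metric.continuousAt_iff]
  intro ε hε
  obtain ⟨N, hN1, hN2⟩ := ((h1.eventually (gt_mem_nhds hε)).and (eventually_gt_atTop 0)).exists
  have hNpos : (0 : ℝ) < N := by exact_mod_cast hN2
  refine ⟨δ / ((m + 1) * N), by positivity, fun {z} hz => ?_⟩
  rw [dist_eq_norm] at hz
  set h := z - x with hh
  have hz' : z = x + h := by rw [hh]; abel
  rw [Real.dist_eq]
  set p := P hF x ((N : ℝ) • h) with hp
  have hval : ∀ j ∈ Finset.range (m + 1), |p.eval (j : ℝ)| ≤ M := by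
    intro j hj
    rw [hp, ← P_eval_nat]
    apply hM
    rw [norm_smul, norm_smul, Real.norm_of_nonneg (by positivity),
      Real.norm_of_nonneg (by positivity)]
    have hj' : (j : ℝ) ≤ m := by
      have := Finset.mem_range.mp hj
      exact_mod_cast Nat.lt_succ_iff.mp this
    calc (j : ℝ) * (N * ‖h‖) ≤ m * (N * ‖h‖) := by gcongr
      _ ≤ m * (N * (δ / ((m + 1) * N))) := by gcongr
      _ = δ * (m / (m + 1)) := by field_simp
      _ < δ * 1 := by
          apply mul_lt_mul_of_pos_left _ hδ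
          rw [div_lt_one (by positivity)]
          linarith
      _ = δ := mul_one _
  have e1 : F z = p.eval (1 / (N : ℝ)) := by
    have := P_eval hF x ((N : ℝ) • h) (1 / (N : ℚ))
    push_cast at this
    rw [hp, ← this, smul_smul, one_div_mul_cancel hNpos.ne', one_smul, hz']
  have e2 : F x = p.eval 0 := by
    have := P_eval_nat hF x ((N : ℝ) • h) 0
    simpa using this
  have e3 : ∀ t : ℝ, p.eval t = ∑ j ∈ Finset.range (m + 1), p.eval (j : ℝ) * (lag m j).eval t := by
    intro t
    have hle := lag_expand (p := p) (P_deg hF x ((N : ℝ) • h))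
    conv_lhs => rw [hle]
    rw [eval_finsetSum]
    refine Finset.sum_congr rfl fun j _ => ?_
    rw [eval_mul, eval_C]
  rw [e1, e2, e3 (1 / (N : ℝ)), e3 0, ← Finset.sum_sub_distrib]
  refine lt_of_le_of_lt (Finset.abs_sum_le_sum_abs _ _) (lt_of_le_of_lt ?_ hN1)
  rw [Finset.mul_sum]
  refine Finset.sum_le_sum fun j hj => ?_
  rw [← mul_sub, abs_mul]
  exact mul_le_mul_of_nonneg_right (hval j hj) (abs_nonneg _)

lemma top_continuous_of_bounded {m : ℕ} {F : E → ℝ} (hF : IsFunctionalOfDegree m F)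
    {δ M : ℝ} (hδ : 0 < δ) (hM : ∀ h : E, ‖h‖ < δ → |top hF h| ≤ M) :
    Continuous (top hF) := by
  rw [continuous_iff_continuousAt]
  intro x
  obtain ⟨K, hK⟩ := exists_nat_gt ((‖x‖ + 1) / δ)
  have hKpos : (0 : ℝ) < K := lt_of_le_of_lt (by positivity) hK
  refine continuousAt_of_bounded (top_isFunctional hF) x (δ := 1) (M := (K : ℝ) ^ m * M)
    one_pos fun h hh => ?_
  have h1 : ‖(1 / (K : ℝ)) • (x + h)‖ < δ := by
    rw [norm_smul, Real.norm_of_nonneg (by positivity), one_div_mul_eq_div, div_lt_iff₀ hKpos]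
    rw [div_lt_iff₀ hδ] at hK
    calc ‖x + h‖ ≤ ‖x‖ + ‖h‖ := norm_add_le _ _
      _ < ‖x‖ + 1 := by linarith
      _ < δ * K := by linarith
  have h2 := top_smul hF (K : ℚ) ((1 / (K : ℝ)) • (x + h))
  push_cast at h2
  rw [smul_smul, mul_one_div_cancel hKpos.ne', one_smul] at h2
  rw [h2, abs_mul, abs_of_nonneg (by positivity : (0 : ℝ) ≤ (K : ℝ) ^ m)]
  exact mul_le_mul_of_nonneg_left (hM _ h1) (by positivity)

lemma limsup_eq_top {u : ℕ → ℝ} (h : ∀ C : ℝ, ∃ᶠ n in atTop, C < u n) :
    limsup (fun n => ((u n : ℝ) : EReal)) atTop = ⊤ := by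
  rw [EReal.eq_top_iff_forall_lt]
  intro C
  have h1 : ((C + 1 : ℝ) : EReal) ≤ limsup (fun n => ((u n : ℝ) : EReal)) atTop := by
    refine le_limsup_of_frequently_le ?_ (by isBoundedDefault)
    refine (h (C + 1)).mono fun n hn => ?_
    exact_mod_cast hn.le
  refine lt_of_lt_of_le ?_ h1
  exact_mod_cast lt_add_one C

lemma main_aux : ∀ (m : ℕ) (F : E → ℝ), IsFunctionalOfDegree m F → ¬ Continuous F →
    ∃ x : ℕ → E, Tendsto x atTop (𝓝 0) ∧ ∀ y : E, ∀ C : ℝ, ∃ᶠ n in atTop, C < |F (x n + y)| := by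
  intro m
  induction m with
  | zero =>
    intro F hF hd
    exfalso
    apply hd
    have : F = fun _ => F 0 := by
      funext x
      have h1 := P_eval_nat hF 0 x 1
      have h2 := P_eval_nat hF 0 x 0
      have h3 : (P hF 0 x).natDegree = 0 := Nat.le_zero.mp (P_deg hF 0 x)
      rw [natDegree_eq_zero] at h3
      obtain ⟨c, hc⟩ := h3
      rw [← hc] at h1 h2
      simp only [eval_C] at h1 h2
      simp at h1 h2
      rw [h1, h2]
    rw [this]
    exact continuous_const
  | succ m ih =>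
    intro F hF hd
    by_cases hc : Continuous (top hF)
    · -- remove the continuous top component
      have hd' : ¬ Continuous (fun x => F x - top hF x) := by
        intro h
        apply hd
        have h2 : F = fun x => (F x - top hF x) + top hF x := by funext x; ring
        rw [h2]
        exact h.add hc
      obtain ⟨x, hx, hy⟩ := ih _ (sub_top hF) hd'
      refine ⟨x, hx, fun y C => ?_⟩
      have hb : Tendsto (fun n => |top hF (x n + y)|) atTop (𝓝 |top hF (0 + y)|) :=
        (((hc.tendsto (0 + y)).comp (hx.add_const y)).abs)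
      have hb' := hb.eventually (gt_mem_nhds (lt_add_one _))
      refine ((hy y (C + (|top hF (0 + y)| + 1))).and_eventually hb').mono fun n hn => ?_
      obtain ⟨hn1, hn2⟩ := hn
      have h3 : |F (x n + y) - top hF (x n + y)| ≤ |F (x n + y)| + |top hF (x n + y)| :=
        abs_sub _ _
      linarith
    · -- the top component is unbounded near zero
      have hunb : ∀ n : ℕ, ∃ h : E, ‖h‖ < 1 / ((n : ℝ) + 1) ∧ (n : ℝ) < |top hF h| := by
        intro n
        by_contra hcon
        push Not at hcon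
        exact hc (top_continuous_of_bounded hF (δ := 1 / ((n : ℝ) + 1)) (M := n)
          (by positivity) hcon)
      choose h hh1 hh2 using hunb
      obtain ⟨K, hK, hlarge⟩ := exists_large hF
      refine ⟨fun N => ((N % (m + 2) : ℕ) : ℝ) • h (N / (m + 2)), ?_, fun y C => ?_⟩
      · rw [tendsto_zero_iff_norm_tendsto_zero]
        have hlim : Tendsto (fun N : ℕ => ((m : ℝ) + 2) * (1 / (((N / (m + 2) : ℕ) : ℝ) + 1)))
            atTop (𝓝 0) := by
          have h1 : Tendsto (fun N : ℕ => N / (m + 2)) atTop atTop :=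
            Nat.tendsto_div_const_atTop (by omega)
          have h2 := (tendsto_one_div_add_atTop_nhds_zero_nat (𝕜 := ℝ)).comp h1
          have h3 := h2.const_mul ((m : ℝ) + 2)
          simpa using h3
        refine squeeze_zero (fun _ => norm_nonneg _) (fun N => ?_) hlim
        rw [norm_smul, Real.norm_of_nonneg (by positivity)]
        have h4 : ((N % (m + 2) : ℕ) : ℝ) ≤ (m : ℝ) + 2 := by
          have := Nat.mod_lt N (show 0 < m + 2 by omega)
          exact_mod_cast this.le
        exact mul_le_mul h4 (hh1 _).le (norm_nonneg _) (by positivity)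
      · rw [frequently_atTop]
        intro N0
        obtain ⟨n, hn1, hn2⟩ : ∃ n : ℕ, N0 ≤ n ∧ C < (n : ℝ) / K := by
          obtain ⟨n1, hn1⟩ := exists_nat_gt (C * K)
          refine ⟨max N0 n1, le_max_left _ _, ?_⟩
          rw [lt_div_iff₀ hK]
          exact lt_of_lt_of_le hn1 (by exact_mod_cast le_max_right _ _)
        obtain ⟨j, hj, hjv⟩ := hlarge y (h n) n (hh2 n)
        have hj' : j < m + 2 := by
          have := Finset.mem_range.mp hj
          omega
        refine ⟨j + (m + 2) * n, ?_, ?_⟩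
        · nlinarith
        · have e1 : (j + (m + 2) * n) % (m + 2) = j := by
            rw [Nat.add_mul_mod_self_left, Nat.mod_eq_of_lt hj']
          have e2 : (j + (m + 2) * n) / (m + 2) = n := by
            rw [Nat.add_mul_div_left _ _ (by omega), Nat.div_eq_of_lt hj', zero_add]
          simp only [e1, e2]
          rw [add_comm _ y]
          linarith

end normed

/-- **Q2 holds**: for every real Banach space `E`, every `m ≥ 1` and every discontinuous
functional `F` of degree `m` on `E` there is a single null sequence `(x n)` such that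
`limsup |F (x n + y)| = +∞` for every `y`. -/
theorem result (E : Type*) [NormedAddCommGroup E] [NormedSpace ℝ E] [CompleteSpace E]
    (m : ℕ) (_hm : 1 ≤ m) (F : E → ℝ) (hF : IsFunctionalOfDegree m F) (hd : ¬ Continuous F) :
    ∃ x : ℕ → E, Tendsto x atTop (𝓝 0) ∧
      ∀ y : E, limsup (fun n => ((|F (x n + y)| : ℝ) : EReal)) atTop = ⊤ := by
  obtain ⟨x, hx, hy⟩ := main_aux m F hF hd
  exact ⟨x, hx, fun y => limsup_eq_top (hy y)⟩



end Pool.Agent.Results.MP_f5651a_an.BlowUpLimsup
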