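import Mathlib

set_option autoImplicit false

open Filter Topology Cardinal

namespace Pool.Agent.Results.MP_f5651a_an.NoBlowUpSequence

/-- `F` is a functional of degree `m`: on every rational line `t ↦ F (x₀ + t h₀)` it is a
polynomial in `t` of degree at most `m`. -/
def IsFunctionalOfDegree {E : Type*} [AddCommGroup E] [Module ℝ E] (m : ℕ) (F : E → ℝ) : Prop :=
  ∀ x₀ h₀ : E, ∃ a : ℕ → ℝ, ∀ t : ℚ,
    F (x₀ + (t : ℝ) • h₀) = ∑ k ∈ Finset.range (m + 1), a k * (t : ℝ) ^ k

section core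

variable {V H : Type} [AddCommGroup V] [Module ℝ V]

lemma exists_functional (x : ℕ → V)
    (hx : ¬ FiniteDimensional ℝ (Submodule.span ℝ (Set.range x))) (c : ℕ → ℝ) :
    ∃ l : V →ₗ[ℝ] ℝ, {n | l (x n) = c n}.Infinite := by
  obtain ⟨b, hbs, hspan, hli⟩ := exists_linearIndependent ℝ (Set.range x)
  have hbinf : b.Infinite := by
    intro hfin
    apply hx
    rw [← hspan]
    exact FiniteDimensional.span_of_finite ℝ hfin
  choose! k hk using fun y (hy : y ∈ b) => hbs hy
  obtain ⟨l, hl⟩ := LinearMap.exists_extend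
    ((Module.Basis.span hli).constr ℝ (fun y : b => c (k y)))
  have hlb : ∀ y ∈ b, l y = c (k y) := by
    intro y hy
    have h1 := LinearMap.congr_fun hl ((Module.Basis.span hli) ⟨y, hy⟩)
    rw [Module.Basis.constr_basis, LinearMap.comp_apply, Submodule.subtype_apply,
      Module.Basis.span_apply] at h1
    exact h1
  refine ⟨l, Set.Infinite.mono (s := k '' b) ?_ (hbinf.image ?_)⟩
  · rintro _ ⟨y, hy, rfl⟩
    simp only [Set.mem_ofPred_eq]
    rw [hk y hy, hlb y hy]
  · intro y hy z hz hyz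
    rw [← hk y hy, ← hk z hz, hyz]

variable (b : Module.Basis H ℝ V) {ι : Type} [LinearOrder ι] [WellFoundedLT ι]
  (s : ι → ℕ → V) (g : ι → H) (ψ : V →ₗ[ℝ] ℝ)

open Classical in
noncomputable def partialL (α : ι) (prev : ∀ β, β < α → (V →ₗ[ℝ] ℝ)) :
    V →ₗ[ℝ] (V →ₗ[ℝ] ℝ) :=
  b.constr ℝ (fun h => if hβ : ∃ β, β < α ∧ g β = h then
    prev hβ.choose hβ.choose_spec.1 else 0)

open Classical in
noncomputable def step (α : ι) (prev : ∀ β, β < α → (V →ₗ[ℝ] ℝ)) : V →ₗ[ℝ] ℝ :=
  if h : ∃ l : V →ₗ[ℝ] ℝ, {n | l (s α n) =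
      -(partialL b g α prev (s α n) (s α n + b (g α)) + ψ (s α n + b (g α)) ^ 2)}.Infinite
  then h.choose else 0

noncomputable def ell : ι → (V →ₗ[ℝ] ℝ) :=
  (wellFounded_lt (α := ι)).fix (fun α prev => step b s g ψ α prev)

lemma ell_eq (α : ι) : ell b s g ψ α = step b s g ψ α (fun β _ => ell b s g ψ β) := by
  unfold ell
  rw [WellFounded.fix_eq]

lemma ell_spec (α : ι)
    (hx : ¬ FiniteDimensional ℝ (Submodule.span ℝ (Set.range (s α)))) :
    {n | ell b s g ψ α (s α n) =
      -(partialL b g α (fun β _ => ell b s g ψ β) (s α n) (s α n + b (g α))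
        + ψ (s α n + b (g α)) ^ 2)}.Infinite := by
  have h := exists_functional (s α) hx (fun n =>
    -(partialL b g α (fun β _ => ell b s g ψ β) (s α n) (s α n + b (g α))
        + ψ (s α n + b (g α)) ^ 2))
  rw [ell_eq]
  unfold step
  rw [dif_pos h]
  exact h.choose_spec

open Classical in
/-- The full bilinear form. -/
noncomputable def fullL : V →ₗ[ℝ] (V →ₗ[ℝ] ℝ) :=
  b.constr ℝ (fun h => if hβ : ∃ β, g β = h then ell b s g ψ hβ.choose else 0)

/-- The quadratic functional. -/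
noncomputable def Q (x : V) : ℝ := fullL b s g ψ x x + ψ x ^ 2

variable {g}

lemma fullL_g (hg : Function.Injective g) (α : ι) :
    fullL b s g ψ (b (g α)) = ell b s g ψ α := by
  unfold fullL
  rw [Module.Basis.constr_basis, dif_pos ⟨α, rfl⟩]
  congr 1
  have h : ∃ β, g β = g α := ⟨α, rfl⟩
  exact hg h.choose_spec

lemma fullL_not (h : H) (hh : ∀ α, g α ≠ h) : fullL b s g ψ (b h) = 0 := by
  unfold fullL
  rw [Module.Basis.constr_basis, dif_neg (by rintro ⟨β, hβ⟩; exact hh β hβ)]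

lemma fullL_zero (x : V) (hx : ∀ h ∈ (b.repr x).support, ∀ β, g β ≠ h) :
    fullL b s g ψ x = 0 := by
  unfold fullL
  rw [Module.Basis.constr_apply]
  refine Finset.sum_eq_zero fun h hh => ?_
  beta_reduce
  rw [dif_neg (by rintro ⟨β, hβ⟩; exact hx h hh β hβ), smul_zero]

/-- On vectors supported in a set of basis indices avoiding `g β` for `β ≥ α` the full form agrees
with the partial form at stage `α`. -/
lemma fullL_eq_partial (hg : Function.Injective g) (α : ι) (x : V)
    (hx : ∀ h ∈ (b.repr x).support, ∀ β, α ≤ β → g β ≠ h) :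
    fullL b s g ψ x = partialL b g α (fun β _ => ell b s g ψ β) x := by
  unfold fullL partialL
  rw [Module.Basis.constr_apply, Module.Basis.constr_apply]
  refine Finsupp.sum_congr fun h hh => ?_
  congr 1
  by_cases hβ : ∃ β, g β = h
  · obtain ⟨β, rfl⟩ := hβ
    have hlt : β < α := by
      by_contra hcon
      exact hx _ hh β (not_lt.mp hcon) rfl
    have h1 : ∃ β', g β' = g β := ⟨β, rfl⟩
    have h2 : ∃ β', β' < α ∧ g β' = g β := ⟨β, hlt, rfl⟩
    rw [dif_pos h1, dif_pos h2]
    congr 1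
    exact hg (h1.choose_spec.trans h2.choose_spec.2.symm)
  · rw [dif_neg hβ, dif_neg]
    rintro ⟨β, -, hβ'⟩
    exact hβ ⟨β, hβ'⟩

lemma Q_const (hg : Function.Injective g) (α : ι)
    (hs : ∀ n, ∀ h ∈ (b.repr (s α n)).support, ∀ β, α ≤ β → g β ≠ h)
    (hx : ¬ FiniteDimensional ℝ (Submodule.span ℝ (Set.range (s α)))) :
    {n | Q b s (g := g) ψ (s α n + b (g α)) = ell b s g ψ α (b (g α))}.Infinite := by
  refine (ell_spec b s g ψ α hx).mono fun n hn => ?_
  simp only [Set.mem_ofPred_eq] at hn ⊢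
  unfold Q
  rw [map_add (fullL b s g ψ), LinearMap.add_apply, fullL_g b s ψ hg α,
    fullL_eq_partial b s ψ hg α _ (hs n), map_add (ell b s g ψ α), hn]
  ring

lemma Q_degree : IsFunctionalOfDegree 2 (Q b s (g := g) ψ) := by
  intro x h
  refine ⟨fun k => if k = 0 then Q b s (g := g) ψ x else if k = 1 then
    fullL b s g ψ x h + fullL b s g ψ h x + 2 * ψ x * ψ h else Q b s (g := g) ψ h, fun t => ?_⟩
  simp only [Finset.sum_range_succ, Finset.sum_range_zero]
  unfold Q
  simp only [map_add, map_smul, LinearMap.add_apply, LinearMap.smul_apply, smul_eq_mul]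
  norm_num
  ring

end core

section choice

variable {V H : Type} [AddCommGroup V] [Module ℝ V]

lemma exists_enumeration (b : Module.Basis H ℝ V) (hH : #H = 𝔠) (hV : #(ℕ → V) ≤ 𝔠)
    (S : Set H) (hS : S.Countable) :
    ∃ (ι : Type) (_ : LinearOrder ι) (_ : WellFoundedLT ι) (s : ι → ℕ → V) (g : ι → H),
      Function.Surjective s ∧ Function.Injective g ∧ (∀ α, g α ∉ S) ∧
      ∀ α, ∀ n, ∀ h ∈ (b.repr (s α n)).support, ∀ β, α ≤ β → g β ≠ h := by
  classical
  let ι : Type := (𝔠).ord.ToType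
  have hι : #ι = 𝔠 := mk_ord_toType _
  have hιinf : ℵ₀ ≤ #ι := by rw [hι]; exact aleph0_le_continuum
  -- the enumeration of all sequences
  obtain ⟨s, hs⟩ : ∃ s : ι → (ℕ → V), Function.Surjective s := by
    obtain ⟨e⟩ : Nonempty ((ℕ → V) ↪ ι) := by
      rw [← Cardinal.le_def, hι]; exact hV
    exact ⟨Function.invFun e, Function.invFun_surjective e.injective⟩
  -- the partition of the basis
  obtain ⟨φ⟩ : Nonempty (H ≃ ι × ι) := by
    rw [← Cardinal.eq, hH, mk_prod, lift_id, hι, mul_eq_self aleph0_le_continuum]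
  let C : ι → Set H := fun α => (⋃ n, ((b.repr (s α n)).support : Set H)) ∪ S
  have hC : ∀ α, (C α).Countable := fun α =>
    (Set.countable_iUnion fun n => (Finset.countable_toSet _)).union hS
  let D : ι → Set H := fun α => ⋃ β : Set.Iic α, C β
  have hD : ∀ α, #(D α) < 𝔠 := by
    intro α
    have h1 : #(D α) ≤ Cardinal.sum (fun β : Set.Iic α => #(C β)) := mk_iUnion_le_sum_mk
    have h2 : Cardinal.sum (fun β : Set.Iic α => #(C β)) ≤ #(Set.Iic α) * ℵ₀ := by
      have := Cardinal.sum_le_sum (fun β : Set.Iic α => #(C β)) (fun _ => ℵ₀)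
        (fun β => (le_aleph0_iff_set_countable.mpr (hC β)))
      rwa [Cardinal.sum_const, lift_id, lift_aleph0] at this
    have h3 : #(Set.Iic α) < 𝔠 := by
      have h4 : #(Set.Iio α) < 𝔠 := mk_Iio_toType_ord_lt α
      have h5 : Set.Iic α = insert α (Set.Iio α) := by
        rw [Set.Iio_insert]
      rw [h5]
      refine lt_of_le_of_lt (mk_insert_le) ?_
      exact add_lt_of_lt aleph0_le_continuum h4 (nat_lt_continuum 1 |>.trans_le' (by simp))
    exact lt_of_le_of_lt (h1.trans h2) (mul_lt_of_lt aleph0_le_continuum h3 aleph0_lt_continuum)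
  have hg : ∀ α, ∃ h, (φ h).1 = α ∧ h ∉ D α := by
    intro α
    by_contra hcon
    push Not at hcon
    have h1 : #ι ≤ #(D α) := by
      refine mk_le_of_injective (f := fun i : ι => (⟨φ.symm (α, i), hcon _ (by simp)⟩ : D α)) ?_
      intro i j hij
      simpa using hij
    rw [hι] at h1
    exact absurd (hD α) (not_lt.mpr h1)
  choose g hg1 hg2 using hg
  refine ⟨ι, inferInstance, inferInstance, s, g, hs, ?_, ?_, ?_⟩
  · intro α β hαβ
    rw [← hg1 α, ← hg1 β, hαβ]
  · intro α hα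
    apply hg2 α
    exact Set.mem_iUnion.mpr ⟨⟨α, le_refl α⟩, Or.inr hα⟩
  · intro α n h hh β hαβ hgβ
    apply hg2 β
    rw [hgβ]
    exact Set.mem_iUnion.mpr ⟨⟨α, hαβ⟩, Or.inl (Set.mem_iUnion.mpr ⟨n, hh⟩)⟩

/-- The algebraic core. -/
lemma core_thm (b : Module.Basis H ℝ V) (hH : #H = 𝔠) (hV : #(ℕ → V) ≤ 𝔠) (e : ℕ → V)
    (he : LinearIndependent ℝ e) :
    ∃ (q : V → ℝ) (L : V →ₗ[ℝ] (V →ₗ[ℝ] ℝ)) (ψ : V →ₗ[ℝ] ℝ), (∀ x, q x = L x x + ψ x ^ 2) ∧
      IsFunctionalOfDegree 2 q ∧ (∀ n : ℕ, q (e n) = (n : ℝ) ^ 2) ∧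
      ∀ x : ℕ → V, ¬ FiniteDimensional ℝ (Submodule.span ℝ (Set.range x)) →
        ∃ (w : V) (c : ℝ), {n | q (x n + w) = c}.Infinite := by
  obtain ⟨ι, _, _, s, g, hs, hg, hgS, hgs⟩ := exists_enumeration b hH hV
    (⋃ n, ((b.repr (e n)).support : Set H))
    (Set.countable_iUnion fun n => (Finset.countable_toSet _))
  obtain ⟨ψ, hψ⟩ : ∃ ψ : V →ₗ[ℝ] ℝ, ∀ n, ψ (e n) = n := by
    obtain ⟨ψ, hψ⟩ := LinearMap.exists_extend ((Module.Basis.span he).constr ℝ
      (fun n : ℕ => (n : ℝ)))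
    refine ⟨ψ, fun n => ?_⟩
    have h1 := LinearMap.congr_fun hψ ((Module.Basis.span he) n)
    rw [Module.Basis.constr_basis, LinearMap.comp_apply, Submodule.subtype_apply,
      Module.Basis.span_apply] at h1
    exact h1
  refine ⟨Q b s (g := g) ψ, fullL b s g ψ, ψ, fun x => rfl, Q_degree b s ψ, fun n => ?_,
    fun x hx => ?_⟩
  · have h0 : fullL b s g ψ (e n) = 0 := by
      refine fullL_zero b s ψ (e n) fun h hh β hβ => hgS β ?_
      rw [hβ]
      exact Set.mem_iUnion.mpr ⟨n, hh⟩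
    unfold Q
    rw [h0, hψ]
    simp
  · obtain ⟨α, rfl⟩ := hs x
    exact ⟨b (g α), _, Q_const b s ψ hg α (hgs α) hx⟩

end choice

section banach

variable {E : Type*} [NormedAddCommGroup E] [NormedSpace ℝ E]

lemma exists_biorth (hE : ¬ FiniteDimensional ℝ E) :
    ∃ (e : ℕ → E) (f : ℕ → (E →L[ℝ] ℝ)), (∀ n, ‖e n‖ = 1) ∧ (∀ n, f n (e n) = 1) ∧
      ∀ m n, m < n → f m (e n) = 0 := by
  obtain ⟨p, hp1, hp2⟩ := exists_seq_of_forall_finset_exists
    (fun p : E × (E →L[ℝ] ℝ) => ‖p.1‖ = 1 ∧ p.2 p.1 = 1) (fun p q => p.2 q.1 = 0) (by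
      intro S _
      let T : E →ₗ[ℝ] (S → ℝ) := LinearMap.pi (fun p : S => (p.1.2 : E →ₗ[ℝ] ℝ))
      obtain ⟨x, hx0, hx⟩ : ∃ x : E, x ≠ 0 ∧ T x = 0 := by
        by_contra hcon
        push Not at hcon
        apply hE
        have hinj : Function.Injective T := by
          rw [← LinearMap.ker_eq_bot, LinearMap.ker_eq_bot']
          intro x hx
          by_contra hx0
          exact hcon x hx0 hx
        exact FiniteDimensional.of_injective T hinj
      have hn : ‖x‖ ≠ 0 := norm_ne_zero_iff.mpr hx0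
      obtain ⟨f, -, hf⟩ := exists_dual_vector ℝ x hn
      refine ⟨(‖x‖⁻¹ • x, f), ⟨?_, ?_⟩, ?_⟩
      · simp only [norm_smul, norm_inv, norm_norm]
        exact inv_mul_cancel₀ hn
      · simp only [map_smul, hf, smul_eq_mul]
        exact inv_mul_cancel₀ hn
      · intro p hp
        have := congrFun hx ⟨p, hp⟩
        simp only [T, LinearMap.pi_apply, Pi.zero_apply] at this
        simp only [map_smul]
        erw [this]
        simp)
  exact ⟨fun n => (p n).1, fun n => (p n).2, fun n => (hp1 n).1, fun n => (hp1 n).2, hp2⟩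

/-- The coordinate map. -/
def proj (f : ℕ → (E →L[ℝ] ℝ)) : E →ₗ[ℝ] (ℕ → ℝ) := LinearMap.pi (fun n => (f n : E →ₗ[ℝ] ℝ))

lemma proj_apply (f : ℕ → (E →L[ℝ] ℝ)) (x : E) (n : ℕ) : proj f x n = f n x := rfl

lemma triangular_indep {e : ℕ → E} {f : ℕ → (E →L[ℝ] ℝ)} (h1 : ∀ n, f n (e n) = 1)
    (h2 : ∀ m n, m < n → f m (e n) = 0) (c : ℕ → ℝ) (hc : ∀ n, c n ≠ 0) :
    LinearIndependent ℝ (fun n => (proj f).rangeRestrict (c n • e n)) := by
  rw [linearIndependent_iff']
  intro S g hS
  have hk : ∀ k, ∑ n ∈ S, g n * (c n * f k (e n)) = 0 := by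
    intro k
    have := congrArg (fun v : (LinearMap.range (proj f)) => (v : ℕ → ℝ) k) hS
    simpa [proj_apply] using this
  intro n
  induction n using Nat.strong_induction_on with
  | _ n ih =>
    intro hn
    have h := hk n
    rw [Finset.sum_eq_single n] at h
    · rw [h1, mul_one] at h
      exact (mul_eq_zero.mp h).resolve_right (hc n)
    · intro m hm hmn
      rcases lt_or_gt_of_ne hmn with hlt | hgt
      · rw [ih m hlt hm, zero_mul]
      · rw [h2 n m hgt, mul_zero, mul_zero]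
    · intro hn'; exact absurd hn hn'

lemma geometric_indep [CompleteSpace E] {e : ℕ → E} {f : ℕ → (E →L[ℝ] ℝ)}
    (h0 : ∀ n, ‖e n‖ = 1) (h1 : ∀ n, f n (e n) = 1)
    (h2 : ∀ m n, m < n → f m (e n) = 0) :
    LinearIndependent ℝ (fun t : Set.Ioo (0 : ℝ) 1 =>
      (proj f).rangeRestrict (∑' n, (t : ℝ) ^ n • e n)) := by
  have hsum : ∀ t : Set.Ioo (0 : ℝ) 1, Summable (fun n => (t : ℝ) ^ n • e n) := by
    intro t
    apply Summable.of_norm
    simp only [norm_smul, h0, mul_one, norm_pow, Real.norm_of_nonneg t.2.1.le]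
    exact summable_geometric_of_lt_one t.2.1.le t.2.2
  have hval : ∀ (t : Set.Ioo (0 : ℝ) 1) (k : ℕ), f k (∑' n, (t : ℝ) ^ n • e n) =
      ∑ n ∈ Finset.range (k + 1), (t : ℝ) ^ n * f k (e n) := by
    intro t k
    rw [(f k).map_tsum (hsum t), tsum_eq_sum (s := Finset.range (k + 1))]
    · refine Finset.sum_congr rfl fun n _ => ?_
      rw [map_smul, smul_eq_mul]
    · intro n hn
      rw [map_smul, h2 k n (by simpa using hn), smul_zero]
  rw [linearIndependent_iff']
  intro S g hS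
  have hk : ∀ k, ∑ t ∈ S, g t * ∑ n ∈ Finset.range (k + 1), (t : ℝ) ^ n * f k (e n) = 0 := by
    intro k
    have := congrArg (fun v : (LinearMap.range (proj f)) => (v : ℕ → ℝ) k) hS
    simpa [proj_apply, hval] using this
  have hm : ∀ k, ∑ t ∈ S, g t * (t : ℝ) ^ k = 0 := by
    intro k
    induction k using Nat.strong_induction_on with
    | _ k ih =>
      have h := hk k
      simp only [Finset.sum_range_succ, mul_add, Finset.sum_add_distrib, h1, mul_one] at h
      have hz : ∑ t ∈ S, g t * ∑ n ∈ Finset.range k, (t : ℝ) ^ n * f k (e n) = 0 := by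
        simp only [Finset.mul_sum]
        rw [Finset.sum_comm]
        refine Finset.sum_eq_zero fun n hn => ?_
        have := ih n (Finset.mem_range.mp hn)
        simp only [← mul_assoc]
        rw [← Finset.sum_mul, this, zero_mul]
      rw [hz, zero_add] at h
      exact h
  have hp : ∀ p : Polynomial ℝ, ∑ t ∈ S, g t * p.eval (t : ℝ) = 0 := by
    intro p
    simp only [Polynomial.eval_eq_sum_range, Finset.mul_sum]
    rw [Finset.sum_comm]
    refine Finset.sum_eq_zero fun n _ => ?_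
    have := hm n
    calc ∑ t ∈ S, g t * (p.coeff n * (t : ℝ) ^ n) = p.coeff n * ∑ t ∈ S, g t * (t : ℝ) ^ n := by
          rw [Finset.mul_sum]; refine Finset.sum_congr rfl fun t _ => ?_; ring
      _ = 0 := by rw [this, mul_zero]
  classical
  intro t0 ht0
  have h := hp (∏ t ∈ S.erase t0, (Polynomial.X - Polynomial.C (t : ℝ)))
  simp only [Polynomial.eval_prod, Polynomial.eval_sub, Polynomial.eval_X, Polynomial.eval_C] at h
  rw [Finset.sum_eq_single t0] at h
  · refine (mul_eq_zero.mp h).resolve_right ?_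
    intro hcon
    rw [Finset.prod_eq_zero_iff] at hcon
    obtain ⟨t, ht, hcon⟩ := hcon
    rw [Finset.mem_erase] at ht
    apply ht.1
    exact Subtype.ext (by linarith)
  · intro t ht htn
    rw [Finset.prod_eq_zero (i := t) (Finset.mem_erase.mpr ⟨htn, ht⟩) (sub_self _), mul_zero]
  · intro h; exact absurd ht0 h

/-- quadratic forms are continuous on finite-dimensional topological vector spaces. -/
lemma quad_continuous {W : Type*} [AddCommGroup W] [Module ℝ W] [TopologicalSpace W]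
    [IsTopologicalAddGroup W] [ContinuousSMul ℝ W] [T2Space W] [FiniteDimensional ℝ W]
    (L : W →ₗ[ℝ] (W →ₗ[ℝ] ℝ)) (ψ : W →ₗ[ℝ] ℝ) : Continuous (fun w => L w w + ψ w ^ 2) := by
  let c := Module.finBasis ℝ W
  have h : (fun w => L w w + ψ w ^ 2) =
      fun w => (∑ j, c.coord j w * L.flip (c j) w) + ψ w ^ 2 := by
    funext w
    congr 1
    conv_lhs => rw [← c.sum_repr w]
    rw [map_sum]
    simp only [LinearMap.flip_apply, map_smul, smul_eq_mul, Module.Basis.coord_apply]
    rw [c.sum_repr w]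
  rw [h]
  have hc : ∀ l : W →ₗ[ℝ] ℝ, Continuous l := fun l => l.continuous_of_finiteDimensional
  refine Continuous.add (continuous_finsetSum _ fun j _ => ?_) ((hc ψ).pow 2)
  exact (hc _).mul (hc _)

end banach

/-- **Q1 fails in every infinite-dimensional real Banach space**, already for `m = 2`. -/
theorem result (E : Type*) [NormedAddCommGroup E] [NormedSpace ℝ E] [CompleteSpace E]
    (hE : ¬ FiniteDimensional ℝ E) :
    ∃ F : E → ℝ, IsFunctionalOfDegree 2 F ∧ ¬ Continuous F ∧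
      ∀ x : ℕ → E, Tendsto x atTop (𝓝 0) →
        ∃ y : E, ¬ Tendsto (fun n => |F (x n + y)|) atTop atTop := by
  obtain ⟨e, f, h0, h1, h2⟩ := exists_biorth hE
  let V := LinearMap.range (proj f)
  let π : E →ₗ[ℝ] V := (proj f).rangeRestrict
  have hπ : Function.Surjective π := LinearMap.surjective_rangeRestrict _
  have hVc : #V ≤ 𝔠 := by
    refine (mk_set_le _).trans ?_
    rw [← power_def, mk_nat, mk_real, continuum_power_aleph0]
  have hVs : #(ℕ → V) ≤ 𝔠 := by
    rw [← power_def, mk_nat]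
    calc #V ^ ℵ₀ ≤ 𝔠 ^ ℵ₀ := power_le_power_right hVc
      _ = 𝔠 := continuum_power_aleph0
  let b := Module.Basis.ofVectorSpace ℝ V
  have hH : #(Module.Basis.ofVectorSpaceIndex ℝ V) = 𝔠 := by
    apply le_antisymm ((mk_set_le _).trans hVc)
    have hli := geometric_indep h0 h1 h2
    have := hli.cardinal_le_rank
    rw [mk_Ioo_real (by norm_num : (0 : ℝ) < 1), ← b.mk_eq_rank''] at this
    exact this
  have hc0 : ∀ n : ℕ, (1 / ((n : ℝ) + 1)) ≠ 0 := fun n => by positivity
  obtain ⟨q, L, ψ, hq, hdeg, hqe, hinf⟩ := core_thm b hH hVs _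
    (triangular_indep h1 h2 (fun n : ℕ => 1 / ((n : ℝ) + 1)) hc0)
  refine ⟨fun x => q (π x), ?_, ?_, ?_⟩
  · intro x h
    obtain ⟨a, ha⟩ := hdeg (π x) (π h)
    refine ⟨a, fun t => ?_⟩
    beta_reduce
    rw [map_add, map_smul, ha]
  · intro hcont
    have hy : Tendsto (fun n : ℕ => (1 / ((n : ℝ) + 1)) • e n) atTop (𝓝 0) := by
      rw [tendsto_zero_iff_norm_tendsto_zero]
      have : (fun n : ℕ => ‖(1 / ((n : ℝ) + 1)) • e n‖) = fun n : ℕ => 1 / ((n : ℝ) + 1) := by
        funext n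
        rw [norm_smul, h0, mul_one, Real.norm_of_nonneg (by positivity)]
      rw [this]
      exact tendsto_one_div_add_atTop_nhds_zero_nat
    have h3 := (hcont.tendsto 0).comp hy
    have h4 : Tendsto (fun n : ℕ => (n : ℝ) ^ 2) atTop atTop :=
      (tendsto_pow_atTop two_ne_zero).comp tendsto_natCast_atTop_atTop
    refine not_tendsto_nhds_of_tendsto_atTop h4 _ (h3.congr fun n => ?_)
    exact hqe n
  · intro x hx
    by_cases hfd : FiniteDimensional ℝ (Submodule.span ℝ (Set.range (fun n => π (x n))))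
    · refine ⟨0, ?_⟩
      let W := Submodule.span ℝ (Set.range (fun n => π (x n)))
      have hcont : Continuous (fun w : W => q (w : V)) := by
        have := quad_continuous (W := ↥W) (L.domRestrict₁₂ W W) (ψ.domRestrict W)
        convert this using 2 with w
        rw [hq]; rfl
      have hπc : Tendsto (fun n => π (x n)) atTop (𝓝 0) := by
        rw [tendsto_subtype_rng, tendsto_pi_nhds]
        intro k
        have := ((f k).continuous.tendsto 0).comp hx
        simpa [π, proj_apply, Function.comp_def] using this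
      let v : ℕ → W := fun n => ⟨π (x n), Submodule.subset_span ⟨n, rfl⟩⟩
      have hv : Tendsto v atTop (𝓝 0) := by
        rw [tendsto_subtype_rng]
        exact hπc
      have h5 := ((hcont.tendsto 0).comp hv).abs
      refine not_tendsto_atTop_of_tendsto_nhds (h5.congr fun n => ?_)
      simp [v]
    · obtain ⟨w, c, hwc⟩ := hinf (fun n => π (x n)) hfd
      obtain ⟨y, rfl⟩ := hπ w
      refine ⟨y, fun hcon => ?_⟩
      have h6 := hcon.eventually (eventually_gt_atTop |c|)
      rw [eventually_atTop] at h6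
      obtain ⟨N, hN⟩ := h6
      obtain ⟨n, hn, hNn⟩ := hwc.exists_gt N
      have h7 := hN n hNn.le
      simp only [Set.mem_ofPred_eq] at hn
      beta_reduce at h7
      rw [map_add, hn] at h7
      exact lt_irrefl _ h7

end Pool.Agent.Results.MP_f5651a_an.NoBlowUpSequence
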